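import Pool.Agent.Helper58.DM.Goals

/-!
# Project DM (MP_06d934_gt): packet M_KER. Completeness of an orthonormal basis.
-/

set_option autoImplicit false

namespace Pool.Agent.Helper19.DM

open Matrix Pool.Agent.Helper58.DM

section

variable {I : Type} [Fintype I] [DecidableEq I] (F : Frame I) (w : Fin 6 → ℝ)

theorem Gc_sum {κ : Type} [Fintype κ] (X : Matrix I I ℂ) (c : κ → ℂ) (Y : κ → Matrix I I ℂ) :
    Gc F w X (∑ j, c j • Y j) = ∑ j, c j * Gc F w X (Y j) := by
  unfold Gc
  simp only [Matrix.sum_apply, Matrix.smul_apply, smul_eq_mul, Finset.mul_sum]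
  rw [Finset.sum_congr rfl fun i _ => Finset.sum_comm, Finset.sum_comm]
  refine Finset.sum_congr rfl fun j _ => Finset.sum_congr rfl fun i _ =>
    Finset.sum_congr rfl fun l _ => ?_
  ring

theorem Gc_add_smul (X Y Z : Matrix I I ℂ) (c : ℂ) :
    Gc F w X (Y + c • Z) = Gc F w X Y + c * Gc F w X Z := by
  unfold Gc
  simp only [Matrix.add_apply, Matrix.smul_apply, smul_eq_mul, Finset.mul_sum]
  rw [← Finset.sum_add_distrib]
  refine Finset.sum_congr rfl fun i _ => ?_
  rw [← Finset.sum_add_distrib]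
  refine Finset.sum_congr rfl fun l _ => ?_
  ring

variable {F w}

theorem Th.add_smul {X Y : Matrix I I ℂ} (hX : Th F X) (hY : Th F Y) (a b : ℂ) :
    Th F (a • X + b • Y) := by
  intro i j
  simp only [Matrix.add_apply, Matrix.smul_apply, smul_eq_mul, hX i j, hY i j]
  ring

theorem Th.conjT {X : Matrix I I ℂ} (hX : Th F X) : Th F Xᴴ := by
  intro i j
  rw [Matrix.conjTranspose_apply, Matrix.conjTranspose_apply, hX j i]
  simp only [star_mul', star_neg, RCLike.star_def, Complex.conj_ofReal]
  push_cast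
  ring

theorem Off.add_smul {X Y : Matrix I I ℂ} (hX : Off F X) (hY : Off F Y) (a b : ℂ) :
    Off F (a • X + b • Y) := by
  intro i j h
  simp [Matrix.add_apply, Matrix.smul_apply, hX i j h, hY i j h]

theorem Off.conjT {X : Matrix I I ℂ} (hX : Off F X) : Off F Xᴴ := by
  intro i j h
  rw [Matrix.conjTranspose_apply, hX j i h.symm, star_zero]

/-- (i) -/
theorem expand_real (hE : M_ENT) {κ : Type} [Fintype κ] [DecidableEq κ] {e : κ → Matrix I I ℂ}
    (hk : 0 < kk F) (hB : IsONB F w e) {X : Matrix I I ℂ} (hX : X ∈ fm F) :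
    X = ∑ j, Gc F w (e j) X • e j := by
  obtain ⟨-, h2, h3, -, -, -⟩ := hE I F hk
  obtain ⟨c, hc⟩ := (Submodule.mem_span_range_iff_exists_fun ℝ).1 (hB.span X hX)
  have hc' : X = ∑ j, (c j : ℂ) • e j := by
    rw [← hc]
    refine Finset.sum_congr rfl fun j _ => ?_
    ext a b
    simp
  have hcoef : ∀ i, Gc F w (e i) X = (c i : ℂ) := by
    intro i
    rw [hc', Gc_sum]
    have : ∀ j, Gc F w (e i) (e j) = if i = j then 1 else 0 := by
      intro j
      rw [← h3 w (e i) (e j) ((h2 _).1 (hB.mem i)).1.1 ((h2 _).1 (hB.mem j)).1.1, hB.orth]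
      split_ifs <;> simp
    simp only [this]
    rw [Finset.sum_eq_single i]
    · simp
    · intro j _ hj
      rw [if_neg (Ne.symm hj), mul_zero]
    · intro h
      exact absurd (Finset.mem_univ _) h
  simp only [hcoef]
  exact hc'

/-- (ii) -/
theorem expand (hE : M_ENT) {κ : Type} [Fintype κ] [DecidableEq κ] {e : κ → Matrix I I ℂ}
    (hk : 0 < kk F) (hB : IsONB F w e) {W : Matrix I I ℂ} (hT : Th F W) (hO : Off F W) :
    W = ∑ j, Gc F w (e j) W • e j := by
  have h2 := (hE I F hk).2.1
  set X : Matrix I I ℂ := (1 / 2 : ℂ) • W + (-(1 / 2) : ℂ) • Wᴴ with hX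
  set Y : Matrix I I ℂ := (-(Complex.I / 2) : ℂ) • W + (-(Complex.I / 2) : ℂ) • Wᴴ with hY
  have hXm : X ∈ fm F := by
    rw [h2]
    refine ⟨⟨?_, Th.add_smul hT (Th.conjT hT) _ _⟩, Off.add_smul hO (Off.conjT hO) _ _⟩
    ext a b
    simp only [hX, Matrix.conjTranspose_apply, Matrix.add_apply, Matrix.smul_apply, Matrix.neg_apply,
      smul_eq_mul, star_add, star_mul', star_neg, star_div₀, star_one, RCLike.star_def,
      map_ofNat, Complex.conj_conj]
    ring
  have hYm : Y ∈ fm F := by
    rw [h2]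
    refine ⟨⟨?_, Th.add_smul hT (Th.conjT hT) _ _⟩, Off.add_smul hO (Off.conjT hO) _ _⟩
    ext a b
    simp only [hY, Matrix.conjTranspose_apply, Matrix.add_apply, Matrix.smul_apply, Matrix.neg_apply,
      smul_eq_mul, star_add, star_mul', star_neg, star_div₀, star_one, RCLike.star_def,
      map_ofNat, Complex.conj_I, Complex.conj_conj]
    ring
  have hW : W = X + Complex.I • Y := by
    ext a b
    simp only [hX, hY, Matrix.add_apply, Matrix.smul_apply, smul_eq_mul]
    ring_nf
    simp only [Complex.I_sq]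
    ring
  have e1 := expand_real hE hk hB hXm
  have e2 := expand_real hE hk hB hYm
  conv_lhs => rw [hW, e1, e2]
  rw [Finset.smul_sum, ← Finset.sum_add_distrib]
  refine Finset.sum_congr rfl fun j _ => ?_
  conv_rhs => rw [hW, Gc_add_smul, add_smul, mul_smul]

theorem dsum (f : I → I → ℂ) (c d : I) :
    ∑ i, ∑ l, f i l * (if l = d ∧ i = c then 1 else 0) = f c d := by
  rw [Finset.sum_eq_single c]
  · rw [Finset.sum_eq_single d]
    · simp
    · intro l _ hl
      rw [if_neg (fun h => hl h.1), mul_zero]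
    · intro h
      exact absurd (Finset.mem_univ _) h
  · intro i _ hi
    refine Finset.sum_eq_zero fun l _ => ?_
    rw [if_neg (fun h => hi h.2), mul_zero]
  · intro h
    exact absurd (Finset.mem_univ _) h

theorem bar5_inj : ∀ a b : Fin 5, bar5 a = bar5 b → a = b := by decide

theorem cls_diag : ∀ a : Fin 5, cls a a = none := by decide

theorem cls_off : ∀ a b : Fin 5, a ≠ b → cls a b ≠ none := by decide

end

theorem m_ker (hE : M_ENT) : Pool.Agent.Helper58.DM.M_KER := by
  intro I _ _ F w κ _ _ e hk hw hB a b c d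
  obtain ⟨-, h2, -, -, h5, -⟩ := hE I F hk
  by_cases hcd : F.bl c = F.bl d
  · have h0 : xx F w c d = 0 := by
      unfold xx
      rw [hcd, cls_diag]
      rfl
    rw [h0, Finset.sum_eq_zero]
    · simp
    · intro j _
      rw [((h2 _).1 (hB.mem j)).2 c d hcd, mul_zero]
  · -- the matrix `W`
    set W : Matrix I I ℂ := Matrix.of fun i j => (1 / 2 : ℂ) * ((if i = d ∧ j = c then 1 else 0) -
      ((F.sg c * F.sg d : ℝ) : ℂ) * (if i = F.bar c ∧ j = F.bar d then 1 else 0)) with hW
    have hbar : ∀ i j, F.bar i = j ↔ i = F.bar j := fun i j =>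
      ⟨fun h => by rw [← h, F.bar_bar], fun h => by rw [h, F.bar_bar]⟩
    have hbi : ∀ i j, F.bar i = F.bar j ↔ i = j := fun i j => by rw [hbar, F.bar_bar]
    have hT : Th F W := by
      intro i j
      simp only [hW, Matrix.of_apply]
      have p1 : (F.bar j = d ∧ F.bar i = c) ↔ (i = F.bar c ∧ j = F.bar d) := by
        rw [hbar, hbar, and_comm]
      have p2 : (F.bar j = F.bar c ∧ F.bar i = F.bar d) ↔ (i = d ∧ j = c) := by
        rw [hbi, hbi, and_comm]
      simp only [p1, p2]
      have r1 : (i = F.bar c ∧ j = F.bar d) → F.sg i * F.sg j * (F.sg c * F.sg d) = 1 := by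
        rintro ⟨rfl, rfl⟩
        rw [F.sg_bar, F.sg_bar]
        calc F.η * F.sg c * (F.η * F.sg d) * (F.sg c * F.sg d)
            = (F.η * F.η) * (F.sg c * F.sg c) * (F.sg d * F.sg d) := by ring
          _ = 1 := by rw [F.η_sq, F.sg_sq, F.sg_sq]; norm_num
      have r2 : (i = d ∧ j = c) → F.sg i * F.sg j = F.sg c * F.sg d := by
        rintro ⟨rfl, rfl⟩
        ring
      have r1' : (i = F.bar c ∧ j = F.bar d) →
          ((F.sg i * F.sg j : ℝ) : ℂ) * ((F.sg c * F.sg d : ℝ) : ℂ) = 1 := by
        intro h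
        rw [← Complex.ofReal_mul, r1 h, Complex.ofReal_one]
      have r2' : (i = d ∧ j = c) → ((F.sg i * F.sg j : ℝ) : ℂ) = ((F.sg c * F.sg d : ℝ) : ℂ) := by
        intro h
        rw [r2 h]
      by_cases c1 : i = F.bar c ∧ j = F.bar d <;> by_cases c2 : i = d ∧ j = c
      · rw [if_pos c1, if_pos c2]
        have q1 := r1' c1
        have q2 := r2' c2
        linear_combination (-(1 / 2) : ℂ) * q1 + (1 / 2 : ℂ) * q2
      · rw [if_pos c1, if_neg c2]
        have q1 := r1' c1
        linear_combination (-(1 / 2) : ℂ) * q1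
      · rw [if_neg c1, if_pos c2]
        have q2 := r2' c2
        linear_combination (1 / 2 : ℂ) * q2
      · rw [if_neg c1, if_neg c2]
        ring
    have hO : Off F W := by
      intro i j hij
      simp only [hW, Matrix.of_apply]
      have c2 : ¬ (i = d ∧ j = c) := by
        rintro ⟨rfl, rfl⟩
        exact hcd hij.symm
      have c1 : ¬ (i = F.bar c ∧ j = F.bar d) := by
        rintro ⟨rfl, rfl⟩
        rw [F.bl_bar, F.bl_bar] at hij
        exact hcd (bar5_inj _ _ hij)
      rw [if_neg c1, if_neg c2]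
      ring
    have hGc : ∀ j, Gc F w (e j) W = -(kk F : ℂ) * (xx F w c d : ℂ) * e j c d := by
      intro j
      have hTj : Th F (e j) := ((h2 _).1 (hB.mem j)).1.2
      have t1 := hTj c d
      have t2 : ((F.sg c * F.sg d : ℝ) : ℂ) * ((F.sg c * F.sg d : ℝ) : ℂ) = 1 := by
        rw [← Complex.ofReal_mul]
        have : F.sg c * F.sg d * (F.sg c * F.sg d) = 1 := by
          calc F.sg c * F.sg d * (F.sg c * F.sg d) = (F.sg c * F.sg c) * (F.sg d * F.sg d) := by ring
            _ = 1 := by rw [F.sg_sq, F.sg_sq]; norm_num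
        rw [this, Complex.ofReal_one]
      have x1 : xx F w (F.bar d) (F.bar c) = xx F w c d := by
        rw [(h5 w d c).2, (h5 w d c).1]
      unfold Gc
      have hsum : ∑ i, ∑ l, (xx F w i l : ℂ) * (e j i l * W l i) =
          (1 / 2 : ℂ) * ((xx F w c d : ℂ) * e j c d -
            ((F.sg c * F.sg d : ℝ) : ℂ) * ((xx F w (F.bar d) (F.bar c) : ℂ) *
              e j (F.bar d) (F.bar c))) := by
        have hterm : ∀ i l, (xx F w i l : ℂ) * (e j i l * W l i) =
            (1 / 2 : ℂ) * (((xx F w i l : ℂ) * e j i l) * (if l = d ∧ i = c then 1 else 0)) -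
            (1 / 2 : ℂ) * ((F.sg c * F.sg d : ℝ) : ℂ) *
              (((xx F w i l : ℂ) * e j i l) * (if l = F.bar c ∧ i = F.bar d then 1 else 0)) := by
          intro i l
          simp only [hW, Matrix.of_apply]
          ring
        simp only [hterm, Finset.sum_sub_distrib, ← Finset.mul_sum]
        rw [dsum (fun i l => (xx F w i l : ℂ) * e j i l) c d,
          dsum (fun i l => (xx F w i l : ℂ) * e j i l) (F.bar d) (F.bar c)]
        ring
      rw [hsum, x1, t1]
      linear_combination (-(kk F : ℂ) * (xx F w c d : ℂ) * e j c d / 2) * t2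
    have hexp := expand hE hk hB hT hO
    have hab : W a b = ∑ j, Gc F w (e j) W * e j a b := by
      conv_lhs => rw [hexp]
      simp [Matrix.sum_apply]
    have hx : xx F w c d ≠ 0 := by
      unfold xx
      cases hc : cls (F.bl c) (F.bl d) with
      | none => exact absurd hc (cls_off _ _ hcd)
      | some t => exact (hw t).ne'
    have hk' : (kk F : ℂ) ≠ 0 := by exact_mod_cast hk.ne'
    have hx' : (xx F w c d : ℂ) ≠ 0 := by exact_mod_cast hx
    have hsum2 : W a b = -(kk F : ℂ) * (xx F w c d : ℂ) * ∑ j, e j a b * e j c d := by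
      rw [hab, Finset.mul_sum]
      refine Finset.sum_congr rfl fun j _ => ?_
      rw [hGc]
      ring
    have hWab : W a b = (1 / 2 : ℂ) * ((if a = d ∧ b = c then 1 else 0) -
      ((F.sg c * F.sg d : ℝ) : ℂ) * (if a = F.bar c ∧ b = F.bar d then 1 else 0)) := rfl
    rw [hWab] at hsum2
    have hR : ((if a = d ∧ b = c then 1 else 0) -
      ((F.sg c * F.sg d : ℝ) : ℂ) * (if a = F.bar c ∧ b = F.bar d then 1 else 0)) =
        2 * (-(kk F : ℂ) * (xx F w c d : ℂ) * ∑ j, e j a b * e j c d) := by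
      linear_combination (2 : ℂ) * hsum2
    rw [hR, Complex.ofReal_inv]
    field_simp

end Pool.Agent.Helper19.DM
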